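import Pool.Agent.N155.G.Res

/-!
Holomorphic maps of bounded distortion from discs, half-planes, the punctured disc and the plane to
projective manifolds with positive 2-forms, for example to surfaces of general type: they are close
to, or contained in, finitely many elliptic curves.
-/

set_option autoImplicit false

open Metric Pool.Agent.W602.GT Pool.Agent.N155.BB Pool.Agent.N155.GD LinearAlgebra.Projectivization

/-- Let `X = {F = 0}` be a projective manifold of dimension `d`, and `Z = {G = 0}` a projective set
such that the holomorphic maps from the complex plane to `X ∩ Z` are constant or factor through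
rational curves (for example `Z` empty). Suppose that the 2-forms on `X` are positive outside `Z`
(for example `Λ² Ω` ample and `Z` empty; or `d = 2`, `X` of general type and `X ∩ Z` the union of the
curves contracted in the canonical model, which are rational).

For every number `K` there are finitely many doubly periodic holomorphic maps `g` from the complex
plane to `X`, and numbers `R > 0` and `κ > 0`, such that for all `c > 0`, with respect to the
Fubini-Study metric:

* for every holomorphic map `f` from the disc with center `a` and radius `r ≥ R / c` to `X` with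
  `c ≤ |f'| ≤ K c`, there is a `g` in the list such that, for `|z - a| ≤ r - R / c`, the sine of the
  distance of `f z` to the image of `g` is at most `exp (- κ c² (r² - |z - a|²))`;
* for every holomorphic map `f` from a domain which contains a half-plane to `X` with
  `c ≤ |f'| ≤ K c`, the image of `f` is contained in the image of some `g` in the list;
* for every holomorphic map `f` from the punctured unit disc to `X` with
  `c / |z| ≤ |f' z| ≤ K c / |z|`, the image of `f` is contained in the image of some `g` in the list;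
* every holomorphic map `f` from the complex plane to `X` with `c ≤ |f'| ≤ K c` is
  `f z = g (a z + b)` for some `g` in the list and some numbers `a ≠ 0`, `b`. -/
theorem Pool.Agent.Results.MP_45e720_ag.BoundedDistortionDiscs.result {n : ℕ} {ι ι' : Type}
    (F : ι → MvPolynomial (Fin (n + 1)) ℂ) (d : ℕ) (hX : ProjManifold F d)
    (G : ι' → MvPolynomial (Fin (n + 1)) ℂ) (hG : ∀ i, IsForm (G i))
    (hZ : RationalCurvesOnly F G) {κ : Type}
    (η : κ → (Fin (n + 1) → ℂ) → (Fin (n + 1) → ℂ) → (Fin (n + 1) → ℂ) → ℂ)
    (hη : PositiveTwoForms (Cone F) (Cone G) d η) (K : ℝ) :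
    ∃ (S : Finset (ℂ → ℙ ℂ (Fin (n + 1) → ℂ))) (R κ : ℝ), 0 < R ∧ 0 < κ ∧
      (∀ g ∈ S, HolIn F g ∧ DoublyPeriodic g) ∧
      (∀ (a : ℂ) (r c : ℝ) (f : ℂ → ℙ ℂ (Fin (n + 1) → ℂ)), 0 < c → R ≤ c * r →
        HolBetween F (ball a r) (fun _ => c) (fun _ => K * c) f → ∃ g ∈ S, ∀ z : ℂ,
          c * ‖z - a‖ ≤ c * r - R →
            ∃ w : ℂ, chord (f z) (g w) ≤ Real.exp (-κ * (c ^ 2 * (r ^ 2 - ‖z - a‖ ^ 2)))) ∧
      (∀ (U : Set ℂ) (c : ℝ) (f : ℂ → ℙ ℂ (Fin (n + 1) → ℂ)), IsOpen U → IsPreconnected U →
        HasHalfPlane U → 0 < c → HolBetween F U (fun _ => c) (fun _ => K * c) f →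
        ∃ g ∈ S, ∀ z ∈ U, ∃ w : ℂ, f z = g w) ∧
      (∀ (c : ℝ) (f : ℂ → ℙ ℂ (Fin (n + 1) → ℂ)), 0 < c →
        HolBetween F (ball 0 1 \ {0}) (fun z => c / ‖z‖) (fun z => K * c / ‖z‖) f →
        ∃ g ∈ S, ∀ z ∈ ball (0 : ℂ) 1 \ {0}, ∃ w : ℂ, f z = g w) ∧
      ∀ (c : ℝ) (f : ℂ → ℙ ℂ (Fin (n + 1) → ℂ)), 0 < c →
        HolBetween F Set.univ (fun _ => c) (fun _ => K * c) f →
        ∃ g ∈ S, ∃ a b : ℂ, a ≠ 0 ∧ ∀ z, f z = g (a * z + b) :=
  bounded_distortion hX hG hη (noBC_of hZ) K
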