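import Pool.Agent.N154.TT.T1

/-!
Maps from complex tori and Kobayashi hyperbolicity for projective manifolds with positive 2-forms
(for surfaces: with ample canonical bundle) which are mapped to a complex torus of any dimension with
hyperbolic fibres.
-/

set_option autoImplicit false

open FF LinearAlgebra.Projectivization Pool.Agent.W602.GT Pool.Agent.N154.GG

/-- Let `X = {F = 0}` be a smooth projective variety of dimension `d` with function field `K` and
generic point `y`, whose 2-forms are positive (for example, with ample `Λ² Ω`; for surfaces: with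
ample canonical bundle), and let `α : X → ℂᵐ / Λ` be a holomorphic map to a complex torus of any
dimension `m`, whose fibres are Brody hyperbolic.

Then every holomorphic map `f : ℂ → X` with bounded derivative is doubly periodic: it is the
composition of `ℂ → ℂ / L` and a holomorphic map from an elliptic curve to `X`. If every holomorphic
map from an elliptic curve to `X` is constant (in particular, if every holomorphic map from a complex
torus to `X` is constant), then `X` is Kobayashi hyperbolic: the Kobayashi pseudodistance is bounded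
below by a multiple of the distance of projective space. -/
theorem Pool.Agent.Results.MP_45e720_ag.FibredOverTori.result {n d m : ℕ} {ι : Type}
    (F : ι → MvPolynomial (Fin (n + 1)) ℂ) {K : Type} [Field K] [Algebra ℂ K]
    (y : Fin (n + 1) → K) (hX : SmoothVariety F d y) {κ : Type}
    (η : κ → (Fin (n + 1) → ℂ) → (Fin (n + 1) → ℂ) → (Fin (n + 1) → ℂ) → ℂ)
    (hη : PositiveTwoForms (Cone F) d η) (Λ : Submodule ℤ (Fin m → ℂ)) [DiscreteTopology Λ]
    [IsZLattice ℝ Λ] (α : (Fin (n + 1) → ℂ) → (Fin m → ℂ) ⧸ Λ)
    (hα : Pool.Agent.N154.TT.HolToTorus (Cone F) Λ α) (hfib : HyperbolicFibres F α) :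
    (∀ f : ℂ → ℙ ℂ (Fin (n + 1) → ℂ), HolIn F f →
      (∃ B : ℝ, ∀ z w, projDist (f z) (f w) ≤ B * ‖z - w‖) →
      ∃ L : PeriodPair, ∀ l ∈ L.lattice, ∀ z, f (z + l) = f z) ∧
    ((∀ (L : PeriodPair) (f : ℂ → ℙ ℂ (Fin (n + 1) → ℂ)), HolIn F f →
      (∀ l ∈ L.lattice, ∀ z, f (z + l) = f z) → ∀ z w, f z = f w) →
      ∃ c : ℝ, 0 < c ∧ ∀ p q : ℙ ℂ (Fin (n + 1) → ℂ), p.rep ∈ Cone F → q.rep ∈ Cone F →
        ENNReal.ofReal (c * projDist p q) ≤ kobayashi (Cone F) p q) :=
  Pool.Agent.N154.TT.lang_geo hX hη hα hfib
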